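import Pool.Agent.MP_9fbb57_co.Basic

section

namespace Pool.Agent.MP_9fbb57_co.Off

open Finset

variable {N : ℕ}

/-- The weight of an edge set `X`: edges of `A` count `2`, edges of `B` count `0`. -/
noncomputable def W (A B X : Finset (Sym2 (Fin N))) : ℝ :=
  ∏ e ∈ X, if e ∈ A then 2 else if e ∈ B then 0 else 1

/-- The edges spanned by a vertex set. -/
def edges (K : Finset (Fin N)) : Finset (Sym2 (Fin N)) := K.offDiag.image Sym2.mk.uncurry

lemma mem_edges {K : Finset (Fin N)} {u v : Fin N} :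
    s(u, v) ∈ edges K ↔ u ∈ K ∧ v ∈ K ∧ u ≠ v := by
  simp only [edges, mem_image, mem_offDiag, Prod.exists, Function.uncurry, Sym2.eq_iff]
  constructor
  · rintro ⟨a, b, ⟨h1, h2, h3⟩, ⟨rfl, rfl⟩ | ⟨rfl, rfl⟩⟩
    · exact ⟨h1, h2, h3⟩
    · exact ⟨h2, h1, h3.symm⟩
  · exact fun h => ⟨u, v, h, Or.inl ⟨rfl, rfl⟩⟩

lemma card_edges (K : Finset (Fin N)) : (edges K).card = K.card.choose 2 :=
  Sym2.card_image_offDiag K

lemma edges_inter (K L : Finset (Fin N)) : edges K ∩ edges L = edges (K ∩ L) := by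
  ext e
  induction e using Sym2.ind with
  | _ u v => simp only [mem_inter, mem_edges]; tauto

lemma edges_mono {K L : Finset (Fin N)} (h : K ⊆ L) : edges K ⊆ edges L := by
  intro e
  induction e using Sym2.ind with
  | _ u v => simp only [mem_edges]; exact fun h' => ⟨h h'.1, h h'.2.1, h'.2.2⟩

lemma W_nonneg (A B X : Finset (Sym2 (Fin N))) : 0 ≤ W A B X :=
  prod_nonneg fun e _ => by split_ifs <;> norm_num

lemma W_le (A B X : Finset (Sym2 (Fin N))) : W A B X ≤ 2 ^ X.card := by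
  rw [← prod_const]
  exact prod_le_prod (fun e _ => by split_ifs <;> norm_num) fun e _ => by split_ifs <;> norm_num

lemma W_empty (X : Finset (Sym2 (Fin N))) : W ∅ ∅ X = 1 := by simp [W]

lemma W_full {A B X : Finset (Sym2 (Fin N))} (h : X ⊆ A) : W A B X = 2 ^ X.card := by
  rw [← prod_const]
  exact prod_congr rfl fun e he => if_pos (h he)

lemma W_mul_le (A B X Y : Finset (Sym2 (Fin N))) :
    W A B X * W A B Y ≤ 2 ^ (X ∩ Y).card * W A B (X ∪ Y) := by
  rw [W, W, ← prod_union_inter, mul_comm]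
  exact mul_le_mul_of_nonneg_right (W_le A B _) (W_nonneg A B _)

lemma not_mem_of_W_pos {A B X : Finset (Sym2 (Fin N))} (hd : Disjoint A B) (h : 0 < W A B X)
    {e : Sym2 (Fin N)} (he : e ∈ X) : e ∉ B := fun hB =>
  h.ne' (prod_eq_zero he (by rw [if_neg (disjoint_right.1 hd hB), if_pos hB]))

lemma prod_upd {α : Type} [DecidableEq α] {g g' : α → ℝ} {e : α} (h : ∀ x, x ≠ e → g' x = g x)
    (h1 : g e = 1) (X : Finset α) :
    ∏ x ∈ X, g' x = (if e ∈ X then g' e else 1) * ∏ x ∈ X, g x := by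
  split_ifs with he
  · rw [← mul_prod_erase X g' he, ← mul_prod_erase X g he, h1, one_mul]
    exact congrArg _ (prod_congr rfl fun x hx => h x (ne_of_mem_erase hx))
  · rw [one_mul]
    exact prod_congr rfl fun x hx => h x fun hxe => he (hxe ▸ hx)

lemma W_left {A B : Finset (Sym2 (Fin N))} {e : Sym2 (Fin N)} (h : Free A B e)
    (X : Finset (Sym2 (Fin N))) :
    W (insert e A) B X = (if e ∈ X then 2 else 1) * W A B X := by
  rw [W, W, prod_upd (e := e) (g := fun e => if e ∈ A then 2 else if e ∈ B then 0 else 1)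
    (fun x hx => by simp [hx]) (by simp [h.2.1, h.2.2])]
  simp

lemma W_right {A B : Finset (Sym2 (Fin N))} {e : Sym2 (Fin N)} (h : Free A B e)
    (X : Finset (Sym2 (Fin N))) :
    W A (insert e B) X = (if e ∈ X then 0 else 1) * W A B X := by
  rw [W, W, prod_upd (e := e) (g := fun e => if e ∈ A then 2 else if e ∈ B then 0 else 1)
    (fun x hx => by simp [hx]) (by simp [h.2.1, h.2.2])]
  simp [h.2.1]

lemma Free.of_right {A B : Finset (Sym2 (Fin N))} {e f : Sym2 (Fin N)}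
    (h : Free A (insert e B) f) : Free A B f ∧ f ≠ e :=
  ⟨⟨h.1, h.2.1, fun h' => h.2.2 (mem_insert_of_mem h')⟩,
    fun h' => h.2.2 (h' ▸ mem_insert_self _ _)⟩

lemma W_two {A B : Finset (Sym2 (Fin N))} {e f : Sym2 (Fin N)} (he : Free A B e)
    (hf : Free A (insert e B) f) (X : Finset (Sym2 (Fin N))) :
    W (insert f A) (insert e B) X = W A B X + W A (insert e B) X - W A (insert f B) X -
      if e ∈ X ∧ f ∈ X then W A B X else 0 := by
  rw [W_left hf, W_right he, W_right hf.of_right.1]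
  by_cases h1 : e ∈ X <;> by_cases h2 : f ∈ X <;> simp [h1, h2] <;> ring

lemma W_two' {A B : Finset (Sym2 (Fin N))} {e f : Sym2 (Fin N)} (he : Free A B e)
    (hf : Free A (insert e B) f) (X : Finset (Sym2 (Fin N))) :
    W (insert e B) (insert f A) X = W B A X + W (insert e B) A X - W (insert f B) A X -
      if e ∈ X ∧ f ∈ X then W B A X else 0 := by
  rw [W_right hf.symm, W_left he.symm, W_left hf.of_right.1.symm]
  by_cases h1 : e ∈ X <;> by_cases h2 : f ∈ X <;> simp [h1, h2] <;> ring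

lemma exists_best {p : Sym2 (Fin N) → Prop} (h : ∃ e, p e) (φ : Sym2 (Fin N) → ℝ) :
    ∃ e, p e ∧ ∀ f, p f → φ f ≤ φ e := by
  classical
  obtain ⟨e, he, h'⟩ := exists_max_image (univ.filter p) φ (h.imp fun e he => by simpa using he)
  exact ⟨e, (mem_filter.1 he).2, fun f hf => h' f (by simpa using hf)⟩

/-- The danger for the owner of `B` of completing a clique of size `b` inside `U`. -/
noncomputable def Psi (b : ℕ) (U : Finset (Fin N)) (B A : Finset (Sym2 (Fin N))) : ℝ :=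
  ∑ K ∈ powersetCard b U, W B A (edges K)

lemma Psi_nonneg (b : ℕ) (U : Finset (Fin N)) (B A : Finset (Sym2 (Fin N))) : 0 ≤ Psi b U B A :=
  sum_nonneg fun _ _ => W_nonneg _ _ _

lemma Psi_empty (b : ℕ) (U : Finset (Fin N)) : Psi b U ∅ ∅ = U.card.choose b := by
  simp [Psi, W_empty]

lemma Psi_right_le {b : ℕ} {U : Finset (Fin N)} {A B : Finset (Sym2 (Fin N))} {e : Sym2 (Fin N)}
    (he : Free B A e) : Psi b U B (insert e A) ≤ Psi b U B A :=
  sum_le_sum fun K _ => by
    rw [W_right he]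
    have := W_nonneg B A (edges K)
    split_ifs <;> linarith

lemma Psi_two {b : ℕ} {U : Finset (Fin N)} {A B : Finset (Sym2 (Fin N))} {e f : Sym2 (Fin N)}
    (he : Free A B e) (hf : Free A (insert e B) f) : Psi b U (insert e B) (insert f A) ≤
      Psi b U B A + Psi b U (insert e B) A - Psi b U (insert f B) A := by
  rw [Psi, Psi, Psi, Psi, ← sum_add_distrib, ← sum_sub_distrib]
  refine sum_le_sum fun K _ => ?_
  rw [W_two' he hf]
  have := W_nonneg B A (edges K)
  split_ifs <;> linarith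

lemma le_Psi {b : ℕ} {U : Finset (Fin N)} {A B : Finset (Sym2 (Fin N))} {e : Sym2 (Fin N)}
    (he : Free B A e) {K : Finset (Fin N)} (hKU : K ⊆ U) (hK : K.card = b)
    (h : ∀ u ∈ K, ∀ v ∈ K, u ≠ v → s(u, v) ∈ insert e B) : 2 ^ b.choose 2 ≤ 2 * Psi b U B A := by
  have h1 : edges K ⊆ insert e B := by
    intro x
    induction x using Sym2.ind with
    | _ u v => rw [mem_edges]; exact fun h' => h u h'.1 v h'.2.1 h'.2.2
  have h2 := W_full (B := A) h1
  rw [card_edges, hK, W_left he] at h2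
  have h3 : W B A (edges K) ≤ Psi b U B A :=
    single_le_sum (f := fun K => W B A (edges K)) (fun _ _ => W_nonneg _ _ _)
      (mem_powersetCard.2 ⟨hKU, hK⟩)
  have := W_nonneg B A (edges K)
  rw [← h2]
  split_ifs <;> linarith

lemma not_wins_aux {a b : ℕ} {A B : Finset (Sym2 (Fin N))} {turn : Bool}
    (h : Wins a b A B turn) :
    (turn = true → ¬ ∀ f, Free A B f → 2 * Psi b univ B (insert f A) < 2 ^ b.choose 2) ∧
      (turn = false → ¬ 2 * Psi b univ B A < 2 ^ b.choose 2) := by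
  induction h with
  | mine A B e he _ _ ih => exact ⟨fun _ h => ih.2 rfl (h e he), by simp⟩
  | theirs A B hex _ ih =>
    refine ⟨by simp, fun _ h => ?_⟩
    obtain ⟨e, he, hbest⟩ := exists_best hex fun e => - Psi b univ (insert e B) A
    refine (ih e he ?_).1 rfl fun f hf => ?_
    · rintro ⟨K, hK, h'⟩
      exact absurd (le_Psi he.symm (subset_univ K) hK h') (not_le.2 h)
    · have h1 := Psi_two (b := b) (U := univ) he hf
      have h2 := hbest f hf.of_right.1
      linarith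

/-- Reverse Erdos-Selfridge: the opponent can avoid his clique. -/
lemma not_wins {a b : ℕ} (hb : 2 * N.choose b < 2 ^ b.choose 2) (turn : Bool) :
    ¬ Wins (N := N) a b ∅ ∅ turn := fun h => by
  have h0 : 2 * Psi b (univ : Finset (Fin N)) ∅ ∅ < 2 ^ b.choose 2 := by
    rw [Psi_empty, card_univ, Fintype.card_fin]
    exact_mod_cast hb
  cases turn with
  | false => exact (not_wins_aux h).2 rfl h0
  | true =>
    refine (not_wins_aux h).1 rfl fun f hf => ?_
    have := Psi_right_le (b := b) (U := univ) hf.symm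
    linarith

end Pool.Agent.MP_9fbb57_co.Off

end

section

namespace Pool.Agent.MP_9fbb57_co.Off

open Finset

variable {N : ℕ} {ι : Type} [Fintype ι]

/-- The coefficient of a pair of edge sets. -/
noncomputable def cc (κ l : ℝ) (X Y : Finset (Sym2 (Fin N))) : ℝ :=
  2 ^ (X ∩ Y).card * (κ + if 2 ≤ (X ∩ Y).card then l else 0)

/-- The potential. -/
noncomputable def Phi (X : ι → Finset (Sym2 (Fin N))) (κ l μ : ℝ) (b : ℕ) (U : Finset (Fin N))
    (A B : Finset (Sym2 (Fin N))) : ℝ :=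
  ∑ g, W A B (X g) - ∑ g, ∑ h, cc κ l (X g) (X h) * W A B (X g ∪ X h) - μ * Psi b U B A

lemma cc_nonneg {κ l : ℝ} (hκ : 0 ≤ κ) (hl : 0 ≤ l) (X Y : Finset (Sym2 (Fin N))) :
    0 ≤ cc κ l X Y := by
  unfold cc
  split_ifs <;> positivity

lemma W_congr {A B A' B' X : Finset (Sym2 (Fin N))}
    (h : ∀ e ∈ X, (e ∈ A ↔ e ∈ A') ∧ (e ∈ B ↔ e ∈ B')) : W A B X = W A' B' X :=
  prod_congr rfl fun e he => by simp only [(h e he).1, (h e he).2]

variable {X : ι → Finset (Sym2 (Fin N))} {κ l μ : ℝ} {b : ℕ} {U : Finset (Fin N)}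

lemma Phi_congr (hX : ∀ g, X g ⊆ edges U) {A B A' B' : Finset (Sym2 (Fin N))}
    (h : ∀ e ∈ edges U, (e ∈ A ↔ e ∈ A') ∧ (e ∈ B ↔ e ∈ B')) :
    Phi X κ l μ b U A B = Phi X κ l μ b U A' B' := by
  unfold Phi Psi
  congr 1
  · congr 1
    · exact sum_congr rfl fun g _ => W_congr fun e he => h e (hX g he)
    · exact sum_congr rfl fun g _ => sum_congr rfl fun k _ => congrArg _
        (W_congr fun e he => h e (union_subset (hX g) (hX k) he))
  · exact congrArg _ (sum_congr rfl fun K hK => W_congr fun e he =>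
      (h e (edges_mono (mem_powersetCard.1 hK).1 he)).symm)

lemma quad {l : ℝ} (hl : 0 < l) (y : ℝ) : y - l * y ^ 2 ≤ 1 / (4 * l) := by
  rw [le_div_iff₀ (by positivity)]
  nlinarith [sq_nonneg (2 * l * y - 1)]

lemma Phi_two (hX : ∀ g, X g ⊆ edges U) (hκ : 0 ≤ κ) (hl : 0 < l) (hμ : 0 ≤ μ)
    {A B : Finset (Sym2 (Fin N))} {e f : Sym2 (Fin N)} (he : Free A B e)
    (hf : Free A (insert e B) f) :
    Phi X κ l μ b U A B + Phi X κ l μ b U A (insert e B) - Phi X κ l μ b U A (insert f B) -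
      (if e ∈ edges U then 1 / (4 * l) else 0) ≤ Phi X κ l μ b U (insert f A) (insert e B) := by
  have h3 := mul_le_mul_of_nonneg_left (Psi_two (b := b) (U := U) he hf) hμ
  set y := ∑ g, if e ∈ X g ∧ f ∈ X g then W A B (X g) else 0 with hy
  have h2 : l * y ^ 2 ≤ ∑ g, ∑ h, cc κ l (X g) (X h) *
      if e ∈ X g ∪ X h ∧ f ∈ X g ∪ X h then W A B (X g ∪ X h) else 0 := by
    rw [sq, hy, sum_mul_sum, mul_sum]
    refine sum_le_sum fun g _ => ?_
    rw [mul_sum]
    refine sum_le_sum fun h _ => ?_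
    have a0 := W_nonneg A B (X g ∪ X h)
    have a1 : 0 ≤ cc κ l (X g) (X h) *
        if e ∈ X g ∪ X h ∧ f ∈ X g ∪ X h then W A B (X g ∪ X h) else 0 :=
      mul_nonneg (cc_nonneg hκ hl.le _ _) (by split_ifs <;> simp [a0])
    by_cases hg : e ∈ X g ∧ f ∈ X g
    · by_cases hh : e ∈ X h ∧ f ∈ X h
      · have a2 : 2 ≤ (X g ∩ X h).card := one_lt_card.2
          ⟨e, mem_inter.2 ⟨hg.1, hh.1⟩, f, mem_inter.2 ⟨hg.2, hh.2⟩, hf.of_right.2.symm⟩
        rw [if_pos hg, if_pos hh, if_pos ⟨mem_union_left _ hg.1, mem_union_left _ hg.2⟩, cc,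
          if_pos a2]
        have a3 := mul_le_mul_of_nonneg_left (W_mul_le A B (X g) (X h)) hl.le
        have a4 : 0 ≤ 2 ^ (X g ∩ X h).card * κ * W A B (X g ∪ X h) := by positivity
        nlinarith
      · rwa [if_neg hh, mul_zero, mul_zero]
    · rwa [if_neg hg, zero_mul, mul_zero]
  have h4 : y - l * y ^ 2 ≤ if e ∈ edges U then 1 / (4 * l) else 0 := by
    split_ifs with h
    · exact quad hl y
    · have : y = 0 := sum_eq_zero fun g _ => if_neg fun h' => h (hX g h'.1)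
      simp [this]
  simp only [Phi, W_two he hf, mul_add, mul_sub, sum_add_distrib, sum_sub_distrib] at h3 ⊢
  linarith

lemma Phi_le (hκ : 0 < κ) (hl : 0 ≤ l) (A B : Finset (Sym2 (Fin N))) :
    Phi X κ l μ b U A B ≤ 1 / (4 * κ) - μ * Psi b U B A := by
  have h1 := quad hκ (∑ g, W A B (X g))
  have h2 : κ * (∑ g, W A B (X g)) ^ 2 ≤ ∑ g, ∑ h, cc κ l (X g) (X h) * W A B (X g ∪ X h) := by
    rw [sq, sum_mul_sum, mul_sum]
    refine sum_le_sum fun g _ => ?_
    rw [mul_sum]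
    refine sum_le_sum fun h _ => ?_
    have a0 := W_nonneg A B (X g ∪ X h)
    have a3 := mul_le_mul_of_nonneg_left (W_mul_le A B (X g) (X h)) hκ.le
    have a4 : 0 ≤ 2 ^ (X g ∩ X h).card * (if 2 ≤ (X g ∩ X h).card then l else 0) *
        W A B (X g ∪ X h) := by split_ifs <;> positivity
    unfold cc
    nlinarith
  unfold Phi
  linarith

lemma exists_W_pos (hκ : 0 ≤ κ) (hl : 0 ≤ l) (hμ : 0 ≤ μ) {A B : Finset (Sym2 (Fin N))}
    (h : 0 < Phi X κ l μ b U A B) : ∃ g, 0 < W A B (X g) := by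
  by_contra hc
  push Not at hc
  have h1 : ∑ g, W A B (X g) ≤ 0 := sum_nonpos fun g _ => hc g
  have h2 : 0 ≤ ∑ g, ∑ h, cc κ l (X g) (X h) * W A B (X g ∪ X h) :=
    sum_nonneg fun g _ => sum_nonneg fun h _ => mul_nonneg (cc_nonneg hκ hl _ _) (W_nonneg _ _ _)
  have h3 := mul_nonneg hμ (Psi_nonneg b U B A)
  unfold Phi at h
  linarith

lemma Phi_start (hκ : 0 ≤ κ) (hl : 0 ≤ l) (hμ : 0 ≤ μ) {A : Finset (Sym2 (Fin N))}
    (hA : A = ∅ ∨ ∃ f, Free ∅ ∅ f ∧ A = insert f ∅) :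
    Fintype.card ι - 2 * ∑ g, ∑ h, cc κ l (X g) (X h) - μ * U.card.choose b ≤
      Phi X κ l μ b U A ∅ := by
  have h0 : ∀ Y, 1 ≤ W A ∅ Y ∧ W A ∅ Y ≤ 2 := by
    intro Y
    rcases hA with rfl | ⟨f, hf, rfl⟩
    · simp [W_empty]
    · rw [W_left hf, W_empty]
      split_ifs <;> norm_num
  have h1 : (Fintype.card ι : ℝ) ≤ ∑ g, W A ∅ (X g) := by
    rw [← card_univ, ← nsmul_one]
    exact card_nsmul_le_sum _ _ _ fun g _ => (h0 _).1
  have h2 : ∑ g, ∑ h, cc κ l (X g) (X h) * W A ∅ (X g ∪ X h) ≤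
      2 * ∑ g, ∑ h, cc κ l (X g) (X h) := by
    rw [mul_sum]
    refine sum_le_sum fun g _ => ?_
    rw [mul_sum]
    refine sum_le_sum fun h _ => ?_
    rw [mul_comm 2]
    exact mul_le_mul_of_nonneg_left (h0 _).2 (cc_nonneg hκ hl _ _)
  have h3 : Psi b U ∅ A ≤ U.card.choose b := by
    rw [← Psi_empty]
    rcases hA with rfl | ⟨f, hf, rfl⟩
    · exact le_rfl
    · exact Psi_right_le hf
  have := mul_le_mul_of_nonneg_left h3 hμ
  unfold Phi
  linarith

lemma exists_free_in {s : ℕ} {K : Finset (Fin N)} (hK : K.card = s + 1)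
    {A B : Finset (Sym2 (Fin N))} (hd : Disjoint A B) (hA : ¬ HasClique s A)
    (h : 0 < W A B (edges K)) (v : Fin N) : ∃ e ∈ edges K, Free A B e ∧ v ∉ e := by
  have h5 := pred_card_le_card_erase (s := K) (a := v)
  by_contra hc
  push Not at hc
  have : (K.erase v).card < s := by
    refine card_lt_of_clique hA fun x hx y hy hxy => ?_
    have h1 : s(x, y) ∈ edges K := mem_edges.2 ⟨mem_of_mem_erase hx, mem_of_mem_erase hy, hxy⟩
    by_contra h2
    rcases Sym2.mem_iff.1 (hc _ h1 ⟨by simpa using hxy, h2, not_mem_of_W_pos hd h h1⟩) with h3 | h3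
    · exact ne_of_mem_erase hx h3.symm
    · exact ne_of_mem_erase hy h3.symm
  omega

/-- The invariant at the opponent's turn; `B` belongs to the winner, `A` to the opponent. -/
def InvB (π : Fin N → Fin N) (s b : ℕ) (U : Finset (Fin N)) (c δ : ℝ)
    (Φ : Finset (Sym2 (Fin N)) → Finset (Sym2 (Fin N)) → ℝ) (B A : Finset (Sym2 (Fin N))) :
    Prop :=
  Disjoint A B ∧ Anti π A B ∧ ¬ HasClique s A ∧
    (∀ K ⊆ U, (∀ u ∈ K, ∀ v ∈ K, u ≠ v → s(u, v) ∈ B) → K.card < b) ∧
    (∃ e, Sym2.map π e = e ∧ Free A B e) ∧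
    ∀ f, Sym2.map π f = f → Free A B f → c - (B ∩ edges U).card * δ ≤ Φ (insert f A) B

section main

variable {π : Fin N → Fin N} (hπ : Function.Involutive π) (hU : ∀ v, v ∈ U ↔ π v = v)
  {s t : ℕ} (hst : s < t) (hbt : b + s ≤ t + 2)
include hπ hU

lemma fixed_of_mem {e : Sym2 (Fin N)} (he : e ∈ edges U) : Sym2.map π e = e := by
  induction e using Sym2.ind with
  | _ u v =>
    rw [mem_edges, hU, hU] at he
    rw [Sym2.map_mk, he.1, he.2.1]

include hst hbt

lemma no_blue {A B : Finset (Sym2 (Fin N))} (hd : Disjoint A B) (h : Anti π A B)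
    (hA : ¬ HasClique s A)
    (hB : ∀ K ⊆ U, (∀ u ∈ K, ∀ v ∈ K, u ≠ v → s(u, v) ∈ B) → K.card < b) :
    ¬ HasClique t B := by
  rintro ⟨K, hK, h'⟩
  have h1 := hB (K.filter fun v => π v = v) (fun v hv => (hU v).2 (mem_filter.1 hv).2)
    fun u hu v hv => h' u (mem_filter.1 hu).1 v (mem_filter.1 hv).1
  rcases copy hπ h hd hA h' with h2 | h2 <;> omega

variable {V : ι → Finset (Fin N)} (hV : ∀ g, V g ⊆ U) (hV' : ∀ g, (V g).card = s + 1)
  (hκ : 0 < κ) (hl : 0 < l) (hμ : 0 ≤ μ) {c : ℝ}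
  (hc : (edges U).card * (1 / (4 * l)) < c) (hκμ : 1 / (2 * κ) ≤ μ * 2 ^ b.choose 2)
include hV hV' hκ hl hμ hc hκμ

lemma moveB {A B : Finset (Sym2 (Fin N))} (hd : Disjoint A B) (h : Anti π A B)
    (hA : ¬ HasClique s A) (hΦ : c - (B ∩ edges U).card * (1 / (4 * l)) ≤
      Phi (fun g => edges (V g)) κ l μ b U A B) :
    ∃ e, Free B A e ∧ ¬ HasClique t (insert e B) ∧
      InvB π s b U c (1 / (4 * l)) (Phi (fun g => edges (V g)) κ l μ b U) (insert e B) A := by
  have hX : ∀ g, edges (V g) ⊆ edges U := fun g => edges_mono (hV g)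
  have hδ : 0 < 1 / (4 * l) := by positivity
  have hpos : 0 < Phi (fun g => edges (V g)) κ l μ b U A B := by
    have h1 : ((B ∩ edges U).card : ℝ) ≤ (edges U).card := by
      exact_mod_cast card_le_card inter_subset_right
    have := mul_le_mul_of_nonneg_right h1 hδ.le
    linarith
  obtain ⟨g, hg⟩ := exists_W_pos hκ.le hl.le hμ hpos
  have hex := exists_free_in (hV' g) hd hA hg
  obtain ⟨v0, -⟩ : (V g).Nonempty := card_pos.1 (by rw [hV']; omega)
  obtain ⟨e, ⟨he, hf⟩, hbest⟩ := exists_best (p := fun e => Sym2.map π e = e ∧ Free A B e)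
    ((hex v0).imp fun e he => ⟨fixed_of_mem hπ hU (hX g he.1), he.2.1⟩)
    fun e => Phi (fun g => edges (V g)) κ l μ b U A (insert e B)
  have hd' : Disjoint A (insert e B) := disjoint_insert_right.2 ⟨hf.2.1, hd⟩
  have hB : ∀ K ⊆ U, (∀ u ∈ K, ∀ v ∈ K, u ≠ v → s(u, v) ∈ insert e B) → K.card < b := by
    intro K hK h'
    by_contra h1
    obtain ⟨L, hL, hLc⟩ := exists_subset_card_eq (not_lt.1 h1)
    have h2 := mul_le_mul_of_nonneg_left (le_Psi hf.symm (hL.trans hK) hLc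
      fun u hu v hv => h' u (hL hu) v (hL hv)) hμ
    have h3 := Phi_le (X := fun g => edges (V g)) (μ := μ) (b := b) (U := U) hκ hl.le A B
    have h4 : 1 / (2 * κ) = 2 * (1 / (4 * κ)) := by field_simp; norm_num
    linarith
  refine ⟨e, hf.symm, no_blue hπ hU hst hbt hd' (h.right he) hA hB, hd', h.right he, hA, hB, ?_,
    fun f hf1 hf2 => ?_⟩
  · obtain ⟨e', h1, h2, h3⟩ := hex e.out.1
    refine ⟨e', fixed_of_mem hπ hU (hX g h1), h2.1, h2.2.1, ?_⟩
    rw [mem_insert, not_or]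
    exact ⟨fun h => h3 (h ▸ e'.out_fst_mem), h2.2.2⟩
  · have h1 := Phi_two (b := b) hX hκ.le hl hμ hf hf2
    have h2 := hbest f ⟨hf1, hf2.of_right.1⟩
    by_cases h3 : e ∈ edges U
    · rw [insert_inter_of_mem h3, card_insert_of_notMem fun h => hf.2.2 (mem_inter.1 h).1]
      rw [if_pos h3] at h1
      push_cast
      linarith
    · rw [insert_inter_of_notMem h3]
      rw [if_neg h3] at h1
      linarith

lemma winsB : ∀ B A : Finset (Sym2 (Fin N)),
    InvB π s b U c (1 / (4 * l)) (Phi (fun g => edges (V g)) κ l μ b U) B A →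
      Wins t s B A false := by
  have hX : ∀ g, edges (V g) ⊆ edges U := fun g => edges_mono (hV g)
  refine wins_of_inv _ ?_
  rintro B A ⟨hd, h, hA, hB, ⟨e0, he0, hf0⟩, hΦ⟩
  refine ⟨⟨e0, hf0.symm⟩, fun f hf hc' => ?_⟩
  have hd' : Disjoint (insert f A) B := disjoint_insert_left.2 ⟨hf.2.1, hd⟩
  by_cases hm : Sym2.map π f = f
  · exact moveB hπ hU hst hbt hV hV' hκ hl hμ hc hκμ hd' (h.left hπ hm) hc' (hΦ f hm hf.symm)
  · have h1 := h.free hπ hf.symm hm
    have h2 : Free (insert f A) B (Sym2.map π f) :=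
      ⟨h1.1, by rw [mem_insert, not_or]; exact ⟨hm, h1.2.1⟩, h1.2.2⟩
    have hd2 : Disjoint (insert f A) (insert (Sym2.map π f) B) :=
      disjoint_insert_right.2 ⟨h2.2.1, hd'⟩
    have n1 : ∀ e, Sym2.map π e = e → e ≠ f := fun e he h => hm (h ▸ he)
    have n2 : ∀ e, Sym2.map π e = e → e ≠ Sym2.map π f := fun e he h =>
      hm (by rw [h, map_map hπ] at he; exact he.symm)
    have hB' : ∀ K ⊆ U, (∀ u ∈ K, ∀ v ∈ K, u ≠ v → s(u, v) ∈ insert (Sym2.map π f) B) →
        K.card < b := fun K hK h' => hB K hK fun u hu v hv huv =>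
      (mem_insert.1 (h' u hu v hv huv)).resolve_left
        (n2 _ (fixed_of_mem hπ hU (mem_edges.2 ⟨hK hu, hK hv, huv⟩)))
    refine ⟨_, h2.symm, no_blue hπ hU hst hbt hd2 (h.pair hπ f) hc' hB', hd2, h.pair hπ f, hc',
      hB', ⟨e0, he0, hf0.1, ?_, ?_⟩, fun g hg1 hg2 => ?_⟩
    · rw [mem_insert, not_or]
      exact ⟨n1 _ he0, hf0.2.1⟩
    · rw [mem_insert, not_or]
      exact ⟨n2 _ he0, hf0.2.2⟩
    · rw [insert_inter_of_notMem fun h => n2 _ (fixed_of_mem hπ hU h) rfl]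
      refine (hΦ g hg1 ⟨hg2.1, fun h => hg2.2.1 (mem_insert_of_mem h),
        fun h => hg2.2.2 (mem_insert_of_mem h)⟩).trans_eq (Phi_congr hX fun e he => ?_)
      have a1 := n1 e (fixed_of_mem hπ hU he)
      have a2 := n2 e (fixed_of_mem hπ hU he)
      simp [a1, a2]

theorem wins_start (hs : 2 ≤ s) (hb : 2 ≤ b) (h0 : c ≤ Fintype.card ι -
    2 * ∑ g, ∑ h, cc κ l (edges (V g)) (edges (V h)) - μ * U.card.choose b) :
    Wins (N := N) t s ∅ ∅ false ∧ Wins (N := N) t s ∅ ∅ true := by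
  have hA : ¬ HasClique s (∅ : Finset (Sym2 (Fin N))) := by
    rintro ⟨K, hK, h⟩
    obtain ⟨u, hu, v, hv, huv⟩ := one_lt_card.1 (by omega : 1 < K.card)
    exact notMem_empty _ (h u hu v hv huv)
  have hanti : Anti π (∅ : Finset (Sym2 (Fin N))) ∅ := fun e _ => by simp
  have h1 := h0.trans (Phi_start (X := fun g => edges (V g)) hκ.le hl.le hμ (Or.inl rfl))
  obtain ⟨e, a1, a2, a3⟩ := moveB hπ hU hst hbt hV hV' hκ hl hμ hc hκμ (disjoint_empty_left _)
    hanti hA (by simpa using h1)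
  refine ⟨winsB hπ hU hst hbt hV hV' hκ hl hμ hc hκμ _ _ ⟨disjoint_empty_left _, hanti, hA,
    fun K _ h => ?_, ?_, fun f _ hf => ?_⟩,
    Wins.mine _ _ e a1 a2 (winsB hπ hU hst hbt hV hV' hκ hl hμ hc hκμ _ _ a3)⟩
  · by_contra h2
    obtain ⟨u, hu, v, hv, huv⟩ := one_lt_card.1 (by omega : 1 < K.card)
    exact notMem_empty _ (h u hu v hv huv)
  · obtain ⟨e', b1, b2⟩ := a3.2.2.2.2.1
    exact ⟨e', b1, b2.of_right.1⟩
  · simpa using h0.trans
      (Phi_start (X := fun g => edges (V g)) hκ.le hl.le hμ (Or.inr ⟨f, hf, rfl⟩))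

end main

end Pool.Agent.MP_9fbb57_co.Off

end

section

namespace Pool.Agent.MP_9fbb57_co.Off

open Finset

lemma two_mul_choose_two (n : ℕ) : 2 * (n + 1).choose 2 = (n + 1) * n := by
  induction n with
  | zero => rfl
  | succ n ih => rw [Nat.choose_succ_succ' (n + 1) 1, Nat.choose_one_right, mul_add, ih]; ring

lemma choose_le_three {n b m : ℕ} (h : n ≤ b * m) : n.choose b ≤ (3 * m) ^ b := by
  have h1 : (n.choose b : ℝ) ≤ (n : ℝ) ^ b / b.factorial := Nat.choose_le_pow_div b n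
  have h2 := Real.pow_div_factorial_le_exp (b : ℝ) (Nat.cast_nonneg b) b
  have h3 : Real.exp b ≤ 3 ^ b := by
    rw [← Real.exp_one_pow]
    exact pow_le_pow_left₀ (Real.exp_pos _).le Real.exp_one_lt_three.le b
  have h4 : (n : ℝ) ^ b / b.factorial ≤ (m : ℝ) ^ b * ((b : ℝ) ^ b / b.factorial) := by
    rw [← mul_div_assoc, ← mul_pow]
    have : (n : ℝ) ≤ m * b := by rw [mul_comm]; exact_mod_cast h
    gcongr
  have h5 : (n.choose b : ℝ) ≤ (3 * m : ℝ) ^ b := by
    rw [mul_pow, mul_comm]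
    exact h1.trans (h4.trans (mul_le_mul_of_nonneg_left (h2.trans h3) (by positivity)))
  exact_mod_cast h5

lemma choose_le_two_pow' {n b k : ℕ} (h : n ≤ b * 2 ^ k) : n.choose b ≤ 2 ^ ((k + 2) * b) := by
  refine (choose_le_three h).trans ?_
  rw [pow_mul]
  exact Nat.pow_le_pow_left (by rw [pow_add]; omega) b

lemma draw_num {n q : ℕ} (hq : 6 ≤ q) (h : n ≤ q * 2 ^ (q / 2 - 3)) :
    2 * n.choose q < 2 ^ q.choose 2 := by
  have h1 := choose_le_two_pow' h
  obtain ⟨p, rfl⟩ : ∃ p, q = p + 1 := ⟨q - 1, by omega⟩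
  have h2 := two_mul_choose_two p
  have h3 : 2 * ((p + 1) / 2 - 3 + 2) + 1 ≤ p := by omega
  have h4 : ((p + 1) / 2 - 3 + 2) * (p + 1) + 1 < (p + 1).choose 2 := by nlinarith
  have h5 := Nat.pow_lt_pow_right (a := 2) (by norm_num) h4
  rw [pow_succ] at h5
  omega

lemma num2 {n r k : ℕ} (hk : 2 * k ≤ r + 11) (hn : n ≤ r * 2 ^ k + 1) :
    96 * n.choose (r + 21) ≤ 2 ^ (r + 21).choose 2 := by
  have h0 : 0 < 2 ^ k := by positivity
  have h1 := choose_le_two_pow' (n := n) (b := r + 21) (k := k) (by nlinarith)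
  have h2 := two_mul_choose_two (r + 20)
  have h4 : (k + 2) * (r + 21) + 7 ≤ (r + 21).choose 2 := by nlinarith
  have h5 := Nat.pow_le_pow_right (n := 2) (by norm_num) h4
  rw [pow_add] at h5
  omega

lemma lin_le_two_pow {l : ℕ} (hl : 9 ≤ l) : 40 * l + 40 ≤ 2 ^ l := by
  induction l, hl using Nat.le_induction with
  | base => norm_num
  | succ l _ ih => rw [pow_succ]; omega

lemma num1 {r k j : ℕ} (hr : 400 ≤ r) (hk : r + 10 ≤ 2 * k) (hk' : 2 * k ≤ r + 11) (hj : 3 ≤ j)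
    (hjr : j ≤ r) :
    r.choose j * 2 ^ j.choose 2 * (8 * (r * 2 ^ k + 1) ^ 2 * (r + 1)) ≤ (2 ^ k) ^ j := by
  obtain ⟨l, hl, hl', hrl⟩ : ∃ l, 9 ≤ l ∧ 40 * l ≤ r ∧ r + 1 ≤ 2 ^ l :=
    ⟨r / 40, by omega, by omega, le_trans (by omega) (lin_le_two_pow (l := r / 40) (by omega))⟩
  have h0 : 0 < 2 ^ k := by positivity
  have h1 : r * 2 ^ k + 1 ≤ 2 ^ l * 2 ^ k := by nlinarith
  have h2 : 8 * (r * 2 ^ k + 1) ^ 2 * (r + 1) ≤ 2 ^ (3 + 3 * l + 2 * k) := by
    calc _ ≤ 8 * (2 ^ l * 2 ^ k) ^ 2 * 2 ^ l := by gcongr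
      _ = _ := by ring
  obtain ⟨i, rfl⟩ : ∃ i, j = i + 3 := ⟨j - 3, by omega⟩
  have h3 : 2 * (i + 3).choose 2 = (i + 3) * (i + 2) := two_mul_choose_two (i + 2)
  have key : ∀ x, r.choose (i + 3) ≤ 2 ^ x →
      x + (i + 3).choose 2 + (3 + 3 * l + 2 * k) ≤ k * (i + 3) →
      r.choose (i + 3) * 2 ^ (i + 3).choose 2 * (8 * (r * 2 ^ k + 1) ^ 2 * (r + 1)) ≤
        (2 ^ k) ^ (i + 3) := by
    intro x hx hx'
    calc _ ≤ 2 ^ x * 2 ^ (i + 3).choose 2 * 2 ^ (3 + 3 * l + 2 * k) := by gcongr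
      _ ≤ _ := by
        rw [← pow_add, ← pow_add, ← pow_mul]
        exact Nat.pow_le_pow_right (by norm_num) hx'
  by_cases hc : 2 * (i + 3) ≤ r
  · refine key (l * (i + 3)) ((Nat.choose_le_pow _ _).trans ?_) ?_
    · rw [pow_mul]
      exact Nat.pow_le_pow_left (by omega) _
    · have h4 : (i + 1) * (i + 20 * l + 13) ≤ (i + 1) * (2 * k) :=
        Nat.mul_le_mul_left _ (by omega)
      nlinarith
  · refine key r (Nat.choose_le_two_pow _ _) ?_
    have h4 : (i + 3) * (i + 13) ≤ (i + 3) * (2 * k) := Nat.mul_le_mul_left _ (by omega)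
    nlinarith

lemma exists_invol {n N : ℕ} (h : n + 1 ≤ N) : ∃ π : Fin N → Fin N, Function.Involutive π ∧
    (∀ v : Fin N, v.val < n → π v = v) ∧ (univ.filter fun v => π v = v).card ≤ n + 1 := by
  obtain ⟨p, h1, h2, h3⟩ : ∃ p, n ≤ p ∧ p ≤ n + 1 ∧ (N + p) % 2 = 0 := by
    by_cases h : (N + n) % 2 = 0
    · exact ⟨n, by omega⟩
    · exact ⟨n + 1, by omega⟩
  refine ⟨fun v => if hv : v.val < p then v else ⟨N - 1 - (v.val - p), by omega⟩,
    fun v => ?_, fun v hv => dif_pos (by omega), ?_⟩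
  · have := v.2
    by_cases hv : v.val < p
    · simp only [dif_pos hv]
    · simp only [dif_neg hv]
      rw [dif_neg (by omega)]
      ext
      simp only
      omega
  · refine le_trans (card_le_card (t := univ.filter fun v : Fin N => v.val < p) fun v hv => ?_) ?_
    · have h4 := (mem_filter.1 hv).2
      have := v.2
      by_contra h5
      have h6 : ¬ v.val < p := by simpa using h5
      simp only [dif_neg h6] at h4
      have := congrArg Fin.val h4
      simp only at this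
      omega
    · rw [Fin.card_filter_val_lt]
      omega

lemma card_agree {r m : ℕ} (g : Fin r → Fin m) (J : Finset (Fin r)) :
    (univ.filter fun h : Fin r → Fin m => (univ.filter fun i => g i = h i) = J).card ≤
      m ^ (r - J.card) := by
  refine le_trans (card_le_card (t := Fintype.piFinset fun i => if i ∈ J then {g i} else univ)
    fun h hh => ?_) ?_
  · rw [Fintype.mem_piFinset]
    intro i
    split_ifs with hi
    · rw [← (mem_filter.1 hh).2] at hi
      exact mem_singleton.2 (mem_filter.1 hi).2.symm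
    · exact mem_univ _
  · rw [Fintype.card_piFinset]
    simp only [apply_ite card, card_singleton, card_univ, Fintype.card_fin]
    rw [prod_ite, prod_const_one, one_mul, prod_const]
    have : (univ.filter fun i => ¬ i ∈ J) = Jᶜ := by ext; simp
    rw [this, card_compl, Fintype.card_fin]

lemma pair_sum {N r m : ℕ} {φ : Fin r × Fin m → Fin N} (hφ : Function.Injective φ)
    {V : (Fin r → Fin m) → Finset (Fin N)} (hV : ∀ g, V g = univ.image fun i => φ (i, g i))
    {D : ℝ} (hD : ∀ j, 3 ≤ j → j ≤ r → r.choose j * (2 ^ j.choose 2 * (m : ℝ) ^ (r - j)) ≤ D)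
    (hD0 : 0 ≤ D) (g : Fin r → Fin m) :
    ∑ h, (if 2 ≤ (edges (V g) ∩ edges (V h)).card then
      (2 : ℝ) ^ (edges (V g) ∩ edges (V h)).card else 0) ≤ (r + 1) * D := by
  set F : ℕ → ℝ := fun j => if 3 ≤ j then 2 ^ j.choose 2 else 0 with hF
  have hF0 : ∀ j, 0 ≤ F j := fun j => by simp only [hF]; split_ifs <;> positivity
  calc _ ≤ ∑ h : Fin r → Fin m, F (univ.filter fun i => g i = h i).card := by
        refine sum_le_sum fun h _ => ?_
        have h1 : (V g ∩ V h).card ≤ (univ.filter fun i => g i = h i).card := by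
          refine le_trans (card_le_card (t := (univ.filter fun i => g i = h i).image
            fun i => φ (i, g i)) fun v hv => ?_) card_image_le
          rw [hV, hV, mem_inter, mem_image, mem_image] at hv
          obtain ⟨⟨i, -, rfl⟩, i', -, h2⟩ := hv
          obtain ⟨rfl, h3⟩ := Prod.mk.inj (hφ h2)
          exact mem_image.2 ⟨i', by simp [h3], rfl⟩
        have h2 := Nat.choose_le_choose 2 h1
        rw [edges_inter, card_edges]
        split_ifs with h3
        · have h4 : 3 ≤ (univ.filter fun i => g i = h i).card := by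
            by_contra h5
            have := Nat.choose_le_choose 2
              (by omega : (univ.filter fun i => g i = h i).card ≤ 2)
            rw [Nat.choose_self] at this
            omega
          simp only [hF, if_pos h4]
          exact pow_le_pow_right₀ (by norm_num) h2
        · exact hF0 _
    _ ≤ ∑ J ∈ (univ : Finset (Fin r)).powerset, F J.card * (m : ℝ) ^ (r - J.card) := by
        rw [← sum_fiberwise_of_maps_to (t := (univ : Finset (Fin r)).powerset)
          (g := fun h : Fin r → Fin m => univ.filter fun i => g i = h i) (by simp)]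
        refine sum_le_sum fun J _ => ?_
        rw [sum_congr rfl (g := fun _ => F J.card) fun h hh => by rw [(mem_filter.1 hh).2],
          sum_const, nsmul_eq_mul, mul_comm]
        exact mul_le_mul_of_nonneg_left (by exact_mod_cast card_agree g J) (hF0 _)
    _ ≤ _ := by
        rw [sum_powerset_apply_card (fun j => F j * (m : ℝ) ^ (r - j)), card_univ,
          Fintype.card_fin]
        refine le_trans (sum_le_card_nsmul _ _ D fun j hj => ?_) (by simp)
        simp only [hF, nsmul_eq_mul]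
        split_ifs with h3
        · exact hD j h3 (by simpa [Nat.lt_succ_iff] using hj)
        · simpa using hD0

end Pool.Agent.MP_9fbb57_co.Off

end

section

namespace Pool.Agent.MP_9fbb57_co.Off

open Finset

/-- The player who avoids the larger clique wins on every large board, whoever starts. -/
theorem order_wins {s t N : ℕ} (hs : 400 ≤ s) (ht : 2 * s + 20 ≤ t)
    (hN : (s + 1) * 2 ^ (s / 2 + 6) + 1 ≤ N) :
    Wins (N := N) t s ∅ ∅ false ∧ Wins (N := N) t s ∅ ∅ true := by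
  obtain ⟨k, hk, hk1, hk2⟩ : ∃ k, k = s / 2 + 6 ∧ s + 1 + 10 ≤ 2 * k ∧ 2 * k ≤ s + 1 + 11 :=
    ⟨_, rfl, by omega, by omega⟩
  rw [← hk] at hN
  obtain ⟨π, hπ, hfix, hcard⟩ := exists_invol hN
  set U : Finset (Fin N) := univ.filter fun v => π v = v with hUdef
  have hU : ∀ v, v ∈ U ↔ π v = v := fun v => by simp [hUdef]
  let φ : Fin (s + 1) × Fin (2 ^ k) → Fin N := fun p =>
    Fin.castLE (by omega) (finProdFinEquiv p)
  have hφ : Function.Injective φ := (Fin.castLE_injective _).comp finProdFinEquiv.injective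
  let V : (Fin (s + 1) → Fin (2 ^ k)) → Finset (Fin N) := fun g => univ.image fun i => φ (i, g i)
  have hV : ∀ g, V g ⊆ U := fun g v hv => by
    obtain ⟨i, -, rfl⟩ := mem_image.1 hv
    exact (hU _).2 (hfix _ (finProdFinEquiv (i, g i)).2)
  have hV' : ∀ g, (V g).card = s + 1 := fun g => by
    rw [card_image_of_injective _ fun i j h => (Prod.mk.inj (hφ h)).1, card_univ, Fintype.card_fin]
  obtain ⟨T, hT⟩ : ∃ T : ℝ, T = ((2 ^ k : ℕ) : ℝ) ^ (s + 1) := ⟨_, rfl⟩
  obtain ⟨n, hn⟩ : ∃ n : ℝ, n = (((s + 1) * 2 ^ k + 1 : ℕ) : ℝ) := ⟨_, rfl⟩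
  have hT0 : 0 < T := by rw [hT]; positivity
  have hn1 : 1 ≤ n := by rw [hn]; exact_mod_cast Nat.le_add_left 1 _
  have hn0 : 0 < n := by linarith
  have hι : (Fintype.card (Fin (s + 1) → Fin (2 ^ k)) : ℝ) = T := by simp [hT]
  have hS : ∀ g, ∑ h, (if 2 ≤ (edges (V g) ∩ edges (V h)).card then
      (2 : ℝ) ^ (edges (V g) ∩ edges (V h)).card else 0) ≤ T / (8 * n ^ 2) := by
    intro g
    refine (pair_sum hφ (V := V) (fun _ => rfl) (D := T / (8 * n ^ 2 * (s + 1 + 1)))
      (fun j h3 hj => ?_) (by positivity) g).trans_eq (by push_cast; field_simp)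
    have h1 := num1 (r := s + 1) (by omega) hk1 hk2 h3 hj
    have h2 : ((s + 1).choose j : ℝ) * 2 ^ j.choose 2 * (8 * n ^ 2 * (s + 1 + 1)) ≤
        ((2 ^ k : ℕ) : ℝ) ^ j := by
      rw [hn]
      exact_mod_cast h1
    rw [le_div_iff₀ (by positivity), hT, ← pow_mul_pow_sub _ hj]
    have h4 := mul_le_mul_of_nonneg_right h2
      (by positivity : (0 : ℝ) ≤ ((2 ^ k : ℕ) : ℝ) ^ (s + 1 - j))
    linarith
  have hcc : ∑ g, ∑ h, cc (1 / (24 * T)) (n ^ 2 / T) (edges (V g)) (edges (V h)) ≤ T / 4 := by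
    have h1 : ∀ g, ∑ h, cc (1 / (24 * T)) (n ^ 2 / T) (edges (V g)) (edges (V h)) ≤ 1 / 4 := by
      intro g
      have h2 : ∑ h, cc (1 / (24 * T)) (n ^ 2 / T) (edges (V g)) (edges (V h)) ≤
          ∑ h, (1 / (24 * T) * 2 + (1 / (24 * T) + n ^ 2 / T) *
            if 2 ≤ (edges (V g) ∩ edges (V h)).card then
              (2 : ℝ) ^ (edges (V g) ∩ edges (V h)).card else 0) := by
        refine sum_le_sum fun h _ => ?_
        have h3 : 0 < 1 / (24 * T) := by positivity
        unfold cc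
        split_ifs with h4
        · linarith
        · have h5 : (2 : ℝ) ^ (edges (V g) ∩ edges (V h)).card ≤ 2 ^ 1 :=
            pow_le_pow_right₀ (by norm_num) (by omega)
          nlinarith
      rw [sum_add_distrib, sum_const, card_univ, nsmul_eq_mul, hι, ← mul_sum] at h2
      have h3 := mul_le_mul_of_nonneg_left (hS g)
        (by positivity : 0 ≤ 1 / (24 * T) + n ^ 2 / T)
      have h4 : (1 / (24 * T) + n ^ 2 / T) * (T / (8 * n ^ 2)) = 1 / (192 * n ^ 2) + 1 / 8 := by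
        field_simp
        ring
      have h5 : T * (1 / (24 * T) * 2) = 1 / 12 := by
        field_simp
        norm_num
      have h6 : 1 / (192 * n ^ 2) ≤ 1 / 192 :=
        one_div_le_one_div_of_le (by norm_num) (by nlinarith)
      linarith
    refine (sum_le_card_nsmul _ _ _ fun g _ => h1 g).trans_eq ?_
    rw [card_univ, nsmul_eq_mul, hι]
    ring
  have hE : ((edges U).card : ℝ) ≤ n ^ 2 := by
    rw [card_edges, hn]
    exact_mod_cast (Nat.choose_le_pow _ _).trans (Nat.pow_le_pow_left hcard 2)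
  have hP : (0 : ℝ) < 2 ^ (s + 1 + 21).choose 2 := by positivity
  have hC : (96 : ℝ) * U.card.choose (s + 1 + 21) ≤ 2 ^ (s + 1 + 21).choose 2 := by
    exact_mod_cast num2 hk2 hcard
  refine wins_start (κ := 1 / (24 * T)) (l := n ^ 2 / T) (b := s + 1 + 21)
    (μ := 12 * T / 2 ^ (s + 1 + 21).choose 2) (c := 3 * T / 8) hπ hU (by omega) (by omega) hV hV'
    (by positivity) (by positivity) (by positivity) ?_ (le_of_eq ?_) (by omega) (by omega) ?_
  · have h1 : 1 / (4 * (n ^ 2 / T)) = T / (4 * n ^ 2) := by field_simp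
    have h2 : n ^ 2 * (T / (4 * n ^ 2)) = T / 4 := by field_simp
    have h3 := mul_le_mul_of_nonneg_right hE (by positivity : 0 ≤ T / (4 * n ^ 2))
    rw [h1]
    linarith
  · field_simp
    norm_num
  · have h1 : 12 * T / 2 ^ (s + 1 + 21).choose 2 * U.card.choose (s + 1 + 21) ≤ T / 8 := by
      rw [div_mul_eq_mul_div, div_le_iff₀ hP]
      nlinarith
    rw [hι]
    linarith

/-- On small boards nobody wins. -/
theorem order_draw {s a b : ℕ} (hs : 6 ≤ s) (ha : s ≤ a) (hb : s ≤ b) :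
    ¬ (Wins (N := s * 2 ^ (s / 2 - 3)) a b ∅ ∅ true ∨
      Wins (N := s * 2 ^ (s / 2 - 3)) b a ∅ ∅ false) := by
  have key : ∀ q, s ≤ q → 2 * (s * 2 ^ (s / 2 - 3)).choose q < 2 ^ q.choose 2 := fun q hq =>
    draw_num (by omega) (Nat.mul_le_mul hq (Nat.pow_le_pow_right (by norm_num) (by omega)))
  exact fun h => h.elim (not_wins (key b hb) _) (not_wins (key a ha) _)

theorem order_nat {a b : ℕ} (h1 : 400 ≤ min a b) (h2 : 2 * min a b + 20 ≤ max a b) :
    min a b * 2 ^ (min a b / 2 - 3) < w a b ∧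
      w a b ≤ (min a b + 1) * 2 ^ (min a b / 2 + 6) + 1 := by
  have hmem : ∀ N, (min a b + 1) * 2 ^ (min a b / 2 + 6) + 1 ≤ N →
      Wins (N := N) a b ∅ ∅ true ∨ Wins (N := N) b a ∅ ∅ false := by
    intro N hN
    rcases le_total a b with h | h
    · rw [min_eq_left h] at h1 h2 hN
      rw [max_eq_right h] at h2
      exact Or.inr (order_wins h1 h2 hN).1
    · rw [min_eq_right h] at h1 h2 hN
      rw [max_eq_left h] at h2
      exact Or.inl (order_wins h1 h2 hN).2
  refine ⟨?_, Nat.sInf_le hmem⟩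
  by_contra hc
  have h3 := Nat.sInf_mem (s := {M | ∀ N, M ≤ N →
    Wins (N := N) a b ∅ ∅ true ∨ Wins (N := N) b a ∅ ∅ false}) ⟨_, hmem⟩
  exact order_draw (by omega) (min_le_left a b) (min_le_right a b) (h3 _ (not_lt.1 hc))

lemma sqrt_two_pow (s : ℕ) :
    (2 : ℝ) ^ (s / 2) ≤ Real.sqrt 2 ^ s ∧ Real.sqrt 2 ^ s ≤ 2 * 2 ^ (s / 2) := by
  have h1 : (1 : ℝ) ≤ Real.sqrt 2 := Real.one_le_sqrt.2 (by norm_num)
  have h2 : ∀ j : ℕ, Real.sqrt 2 ^ (2 * j) = 2 ^ j := fun j => by
    rw [pow_mul, Real.sq_sqrt (by norm_num)]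
  constructor
  · rw [← h2]
    exact pow_le_pow_right₀ h1 (by omega)
  · rw [← pow_succ', ← h2]
    exact pow_le_pow_right₀ h1 (by omega)

theorem order_real {a b : ℕ} (h1 : 400 ≤ min a b) (h2 : 2 * min a b + 20 ≤ max a b) :
    (min a b : ℕ) * Real.sqrt 2 ^ min a b / 16 ≤ (w a b : ℝ) ∧
      (w a b : ℝ) ≤ 128 * (min a b : ℕ) * Real.sqrt 2 ^ min a b := by
  obtain ⟨h3, h4⟩ := order_nat h1 h2
  generalize min a b = s at *
  obtain ⟨h5, h6⟩ := sqrt_two_pow s
  have h7 : s * 2 ^ (s / 2) ≤ 8 * w a b := by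
    have : 2 ^ (s / 2) = 8 * 2 ^ (s / 2 - 3) := by
      rw [show s / 2 = s / 2 - 3 + 3 by omega, pow_add, Nat.add_sub_cancel]; ring
    rw [this]
    nlinarith
  have h8 : w a b ≤ 128 * s * 2 ^ (s / 2) := by
    have h0 : 0 < 2 ^ (s / 2) := by positivity
    rw [pow_add] at h4
    nlinarith
  have h9 : (s : ℝ) * 2 ^ (s / 2) ≤ 8 * w a b := by exact_mod_cast h7
  have h10 : (w a b : ℝ) ≤ 128 * s * 2 ^ (s / 2) := by exact_mod_cast h8
  have h0 : (0 : ℝ) ≤ s := Nat.cast_nonneg s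
  constructor
  · nlinarith
  · nlinarith

end Pool.Agent.MP_9fbb57_co.Off

end
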